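import Pool.Agent.Helper20.MS.Border0
import Pool.Agent.Helper29.MS.RemF
import Pool.Agent.Helper89.MS.Oc

/-!
# The exact border for monadic second-order logic, from the theorem on automorphisms
-/

set_option autoImplicit false

namespace Pool.Agent.Helper38.MS

open FirstOrder Pool.Agent.Helper20.Spectra Pool.Agent.Helper31.QD Pool.Agent.Helper38.MC
  Pool.Agent.Helper58.QD Pool.Agent.Helper40.MC Pool.Agent.Helper6.MC Pool.Agent.Helper6.EA
open Pool.Agent.Helper14.SS (SFm)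
open Pool.Agent.Helper40.MCM (SatM countM specM)

/-- MS3: the border, from the key -/
theorem border_ofG (hKey : ∀ r c a e : ℕ, 1 ≤ a → 1 ≤ e → ∃ K : ℕ, ∀ (S : Type) (ar : S → ℕ), (∀ s, ar s ≤ r) → ∀ (n : ℕ)
    (R : Interp S ar (Fin n)), NoBig R c a e → Nat.card (AuG R) ≤ K ^ n)
    (S : Type) [Finite S] (ar : S → ℕ) (φ : SFm (RelLang S ar) 0 0) :
    ∃ K : ℕ, (∀ᶠ n : ℕ in Filter.atTop, countM φ n * K ^ n ≤ n.factorial) → ∃ k, FinAP k (specM φ) :=
  border20 (fun _ _ hc Γ => lt_oc hc Γ) (fun _ _ _ _ _ _ _ _ _ _ h hc hD => h.mono hc hD le_rfl)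
    (fun _ _ _ har φ => pumpG har φ) (fun _ _ _ har φ => removeG har φ) hKey S ar φ

end Pool.Agent.Helper38.MS
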