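import Pool.Agent.Helper38.MS.Defs
import Pool.Agent.Helper40.MC.TameM
import Pool.Agent.Helper12.MC.AP

/-!
# The exact border for monadic second-order logic, from the theorem on automorphisms
-/

set_option autoImplicit false

namespace Pool.Agent.Helper38.MS

open FirstOrder Pool.Agent.Helper20.Spectra Pool.Agent.Helper31.QD Pool.Agent.Helper38.MC
  Pool.Agent.Helper58.QD Pool.Agent.Helper40.MC Pool.Agent.Helper6.MC Pool.Agent.Helper6.EA
open Pool.Agent.Helper14.SS (SFm)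
open Pool.Agent.Helper40.MCM (SatM countM specM factorial_leM)

/-- the blocks of a family are disjoint -/
lemma FamG_card20 {S : Type} {ar : S → ℕ} {n c D t O : ℕ} {R : Interp S ar (Fin n)}
    (h : FamG R c D t O) : D * t ≤ n := by
  obtain ⟨u, Γ, hu, -⟩ := h
  have h1 := Fintype.card_le_of_injective u hu
  rwa [Fintype.card_prod, Fintype.card_fin, Fintype.card_fin, Fintype.card_fin] at h1

lemma FamG_O20 {S : Type} {ar : S → ℕ} {V : Type} {c D t O : ℕ} {R : Interp S ar V}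
    (h : FamG R c D t O) : ∃ Γ : Subgroup (Equiv.Perm (Fin t)), oc c Γ ≤ O := by
  obtain ⟨u, Γ, -, -, -, h⟩ := h
  exact ⟨Γ, h⟩

/-- every large model has a family of blocks of bounded size -/
theorem bounded_famG {S : Type} {ar : S → ℕ} {r : ℕ} (φ : SFm (RelLang S ar) 0 0) {c a e n₀ W : ℕ}
    (hlt : ∀ (t : ℕ) (Γ : Subgroup (Equiv.Perm (Fin t))), t + 1 ≤ oc c Γ)
    (hmono : ∀ (n D D' t O : ℕ) (R : Interp S ar (Fin n)), FamG R c D t O → D' ≤ D → FamG R c D' t O)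
    (ha : 1 ≤ a) (hW1 : n₀ ≤ W) (hW2 : r + 1 ≤ W)
    (hrem : ∀ (n D t O : ℕ) (R : Interp S ar (Fin n)), 1 ≤ t → SatM φ R → FamG R c (D + 1) t O →
      a * O ^ e ≤ D → ∃ n', n' + t = n ∧ ∃ R' : Interp S ar (Fin n'), SatM φ R' ∧
        ∀ c' D' t' O', D' * t' + r < D → FamG R' c' D' t' O' → FamG R c' D' t' O')
    (hfam : ∀ n, n₀ ≤ n → ∀ R : Interp S ar (Fin n), SatM φ R → ∃ t O, 1 ≤ t ∧
      FamG R c (2 * a * O ^ (e + 1)) t O) :
    ∀ n, n₀ ≤ n → ∀ R : Interp S ar (Fin n), SatM φ R → ∃ t O, 1 ≤ t ∧ a * O ^ e * t ≤ W ∧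
      FamG R c (a * O ^ e) t O := by
  intro n
  induction n using Nat.strong_induction_on with
  | _ n ih =>
    intro hn R hR
    obtain ⟨t, O, ht1, hF⟩ := hfam n hn R hR
    have hO : t + 1 ≤ O := by
      obtain ⟨Γ, hΓ⟩ := FamG_O20 hF
      exact (hlt t Γ).trans hΓ
    obtain ⟨P, hP⟩ : ∃ P, P = a * O ^ e := ⟨_, rfl⟩
    have hP1 : 1 ≤ P := by
      rw [hP]
      exact Nat.mul_pos ha (pow_pos (by omega) _)
    have e1 : 2 * a * O ^ (e + 1) = 2 * (P * O) := by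
      rw [hP]
      ring
    have hPO : P ≤ P * O := Nat.le_mul_of_pos_right P (by omega)
    by_cases hW : P * t ≤ W
    · exact ⟨t, O, ht1, by rw [← hP]; exact hW, hmono _ _ _ _ _ _ hF (by rw [← hP, e1]; omega)⟩
    · push Not at hW
      have hcard := FamG_card20 hF
      obtain ⟨D, hD⟩ : ∃ D, 2 * a * O ^ (e + 1) = D + 1 := ⟨2 * a * O ^ (e + 1) - 1, by omega⟩
      rw [hD] at hF hcard
      obtain ⟨n', hn', R', hR', hlift⟩ := hrem n D t O R ht1 hR hF (by omega)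
      have h1 : P * t ≤ D * t := Nat.mul_le_mul_right t (by omega)
      have h2 : (D + 1) * t = D * t + t := by ring
      have h3 : P * t ≤ P * O := Nat.mul_le_mul_left P (by omega)
      obtain ⟨t', O', ht1', hW', hF'⟩ := ih n' (by omega) (by omega) R' hR'
      refine ⟨t', O', ht1', hW', hlift c _ t' O' ?_ hF'⟩
      omega

/-- the border, from the key and the blocks -/
theorem border20 (hlt : ∀ (c t : ℕ), 1 ≤ c → ∀ (Γ : Subgroup (Equiv.Perm (Fin t))), t + 1 ≤ oc c Γ)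
    (hmono : ∀ (S : Type) (ar : S → ℕ) (n c c' D D' t O : ℕ) (R : Interp S ar (Fin n)), FamG R c D t O → c' ≤ c → D' ≤ D →
      FamG R c' D' t O)
    (hpump : ∀ (S : Type) (ar : S → ℕ) (r : ℕ), (∀ s, ar s ≤ r) → ∀ φ : SFm (RelLang S ar) 0 0, ∃ c a e : ℕ, 1 ≤ a ∧
      ∀ (n D t O : ℕ) (R : Interp S ar (Fin n)), 1 ≤ t → SatM φ R → FamG R c D t O → a * O ^ e ≤ D → ∀ j : ℕ,
      ∃ R' : Interp S ar (Fin (n + t * j)), SatM φ R')
    (hrem : ∀ (S : Type) (ar : S → ℕ) (r : ℕ), (∀ s, ar s ≤ r) → ∀ φ : SFm (RelLang S ar) 0 0, ∃ c a e : ℕ, 1 ≤ a ∧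
      ∀ (n D t O : ℕ) (R : Interp S ar (Fin n)), 1 ≤ t → SatM φ R → FamG R c (D + 1) t O → a * O ^ e ≤ D →
      ∃ n', n' + t = n ∧ ∃ R' : Interp S ar (Fin n'), SatM φ R' ∧
        ∀ c' D' t' O', D' * t' + r < D → FamG R' c' D' t' O' → FamG R c' D' t' O')
    (hKey : ∀ r c a e : ℕ, 1 ≤ a → 1 ≤ e → ∃ K : ℕ, ∀ (S : Type) (ar : S → ℕ), (∀ s, ar s ≤ r) → ∀ (n : ℕ)
    (R : Interp S ar (Fin n)), NoBig R c a e → Nat.card (AuG R) ≤ K ^ n)
    (S : Type) [Finite S] (ar : S → ℕ) (φ : SFm (RelLang S ar) 0 0) :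
    ∃ K : ℕ, (∀ᶠ n : ℕ in Filter.atTop, countM φ n * K ^ n ≤ n.factorial) → ∃ k, FinAP k (specM φ) := by
  have := Fintype.ofFinite S
  obtain ⟨r, har⟩ : ∃ r, ∀ s, ar s ≤ r := ⟨Finset.univ.sup ar, fun s => Finset.le_sup (f := ar) (Finset.mem_univ s)⟩
  obtain ⟨c1, a1, e1, ha1, hp⟩ := hpump S ar r har φ
  obtain ⟨c2, a2, e2, ha2, hr⟩ := hrem S ar r har φ
  obtain ⟨c, hc⟩ : ∃ c, c = max 1 (max c1 c2) := ⟨_, rfl⟩
  obtain ⟨a, ha⟩ : ∃ a, a = max a1 a2 := ⟨_, rfl⟩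
  obtain ⟨e, he⟩ : ∃ e, e = max e1 e2 := ⟨_, rfl⟩
  have hc1 : 1 ≤ c := by omega
  have haa : 1 ≤ a := by omega
  obtain ⟨K, hK'⟩ := hKey r c (2 * a) (e + 1) (by omega) (by omega)
  refine ⟨K + 1, fun hcount => ?_⟩
  obtain ⟨n₁, hn₁⟩ := Filter.eventually_atTop.1 hcount
  have hle : ∀ {O x y x' y' : ℕ}, 1 ≤ O → x ≤ x' → y ≤ y' → x * O ^ y ≤ x' * O ^ y' := by
    intro O x y x' y' hO hx hy
    exact Nat.mul_le_mul hx (Nat.pow_le_pow_right hO hy)
  have hOpos : ∀ {n D t O : ℕ} {R : Interp S ar (Fin n)}, FamG R c D t O → 1 ≤ O := by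
    intro n D t O R hF
    obtain ⟨Γ, hΓ⟩ := FamG_O20 hF
    have := hlt c t hc1 Γ
    omega
  have hfam := bounded_famG (r := r) φ (c := c) (a := a) (e := e) (n₀ := max 1 n₁) (W := max 1 n₁ + r + 1)
    (fun t Γ => hlt c t hc1 Γ) (fun n D D' t O R h hD => hmono S ar n c c D D' t O R h le_rfl hD) haa (by omega) (by omega)
    (fun n D t O R ht hR hF hD => hr n D t O R ht hR (hmono S ar n c c2 _ _ t O R hF (by omega) le_rfl)
      ((hle (hOpos hF) (by omega) (by omega)).trans hD))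
    (fun n hn R hR => by
    by_contra hcon
    push Not at hcon
    have h0 := hK' S ar har n R (fun t O ht => hcon t O ht)
    have h1 : countM φ n * (K + 1) ^ n ≤ n.factorial := hn₁ n ((le_max_right _ _).trans hn)
    have h2 : n.factorial ≤ countM φ n * Nat.card (AuG R) := factorial_leM hR
    have h3 : 0 < countM φ n := by
      have h4 := n.factorial_pos.trans_le h2
      exact Nat.pos_of_mul_pos_right h4
    have h5 : (K + 1) ^ n ≤ Nat.card (AuG R) := Nat.le_of_mul_le_mul_left (h1.trans h2) h3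
    have h6 : K ^ n < (K + 1) ^ n := by
      have : 1 ≤ n := (le_max_left _ _).trans hn
      exact Nat.pow_lt_pow_left (Nat.lt_succ_self K) (by omega)
    omega)
  refine ⟨max 1 n₁ + r + 1, (Pool.Agent.Helper12.MC.stmtAP _ _).1 ⟨max 1 n₁, ?_⟩⟩
  rintro n ⟨-, R, hR⟩ hn
  obtain ⟨t, O, ht1, hW, hF⟩ := hfam n hn R hR
  have hO := hOpos hF
  have h7 : 1 ≤ a * O ^ e := Nat.mul_pos haa (pow_pos (by omega) _)
  refine ⟨t, ht1, ?_, fun j => ⟨?_, ?_⟩⟩
  · have : 1 * t ≤ a * O ^ e * t := Nat.mul_le_mul_right t h7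
    omega
  · have h6 : 1 ≤ n := (le_max_left _ _).trans hn
    omega
  · exact hp n _ t O R ht1 hR (hmono S ar n c c1 _ _ t O R hF (by omega) le_rfl) (hle hO (by omega) (by omega)) j

end Pool.Agent.Helper38.MS
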