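import Pool.Agent.Helper38.MS.Defs
import Pool.Agent.Helper20.EA.Fam

/-!
# The class of the conjugates of a component
-/

set_option autoImplicit false

namespace Pool.Agent.Helper38.MS

open FirstOrder Pool.Agent.Helper20.Spectra Pool.Agent.Helper31.QD Pool.Agent.Helper38.MC
  Pool.Agent.Helper58.QD Pool.Agent.Helper40.MC Pool.Agent.Helper6.MC Pool.Agent.Helper6.EA Pool.Agent.Helper31.MC
open Pool.Agent.Helper12.EK (Gr Ball Cmp mem_Cmp)

variable {S : Type} {ar : S → ℕ} {V : Type} [Fintype V]

open Classical in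
/-- a pattern of a tuple in a component whose outer elements are outside of the component is not a minority pattern -/
theorem not_min {r Δ T : ℕ} (R : Interp S ar V) {A : Finset V} {E : V → V → Prop}
    (hG : Gd r R A E r Δ T) {K : Finset V} (hK : ∀ y ∈ K, ∀ w, (Gr E).Reachable y w → w ∈ K)
    (horb : ∀ y ∈ K, T < (oA R A y).card) {u : Fin (r + 1) → V} (hu : ∀ i, u i ∈ K)
    (hcard : (Finset.univ.image u).card ≤ r) {s : S} {p : Fin (ar s) → V ⊕ Fin (r + 1)}
    (hout : ∀ w ∈ out p, w ∉ K) : ¬ Min R A u s p := by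
  intro hmin
  obtain ⟨w, hwo, b, hE⟩ := hG.main A (Finset.Subset.refl A) u hcard (fun b => horb _ (hu b)) s p hmin
  exact hout w hwo (hK _ (hu b) w (reach_of_E20 hE))

/-- an element of the group which maps a component to itself can be restricted to the component -/
theorem restrict {r Δ T : ℕ} (har : ∀ s, ar s ≤ r) (R : Interp S ar V) {A : Finset V} {E : V → V → Prop}
    (hG : Gd r R A E r Δ T) {K : Finset V} (hK : ∀ y ∈ K, ∀ w, (Gr E).Reachable y w → w ∈ K)
    (horb : ∀ y ∈ K, T < (oA R A y).card) {g : Equiv.Perm V} (hg : g ∈ GA R A) (hgK : ∀ y ∈ K, g y ∈ K)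
    {σ : Equiv.Perm V} (h1 : ∀ y ∈ K, σ y = g y) (h2 : ∀ y, y ∉ K → σ y = y) : Au R σ := by
  classical
  intro s v
  by_cases hex : ∃ m, v m ∈ K
  · obtain ⟨m₀, hm₀⟩ := hex
    have hrs : ar s ≤ r := har s
    let c : Fin (r + 1) → V := fun l =>
      if hl : ∃ hl : (l : ℕ) < ar s, v ⟨l, hl⟩ ∈ K then v ⟨l, hl.1⟩ else v m₀
    let p : Fin (ar s) → V ⊕ Fin (r + 1) := fun m =>
      if v m ∈ K then Sum.inr ⟨m, by omega⟩ else Sum.inl (v m)
    have hc : ∀ l, c l ∈ K := by
      intro l
      by_cases hl : ∃ hl : (l : ℕ) < ar s, v ⟨l, hl⟩ ∈ K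
      · simp only [c]
        rw [dif_pos hl]
        exact hl.2
      · simp only [c]
        rw [dif_neg hl]
        exact hm₀
    have hcard : ∀ g : Equiv.Perm V, (Finset.univ.image (g ∘ c)).card ≤ r := by
      intro g
      have h1 : Finset.univ.image (g ∘ c) ⊆ Finset.univ.image (g ∘ v) := by
        intro w hw
        obtain ⟨l, -, rfl⟩ := Finset.mem_image.1 hw
        rw [Finset.mem_image]
        by_cases hl : ∃ hl : (l : ℕ) < ar s, v ⟨l, hl⟩ ∈ K
        · refine ⟨⟨l, hl.1⟩, Finset.mem_univ _, ?_⟩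
          simp only [c, Function.comp_apply]
          rw [dif_pos hl]
        · refine ⟨m₀, Finset.mem_univ _, ?_⟩
          simp only [c, Function.comp_apply]
          rw [dif_neg hl]
      refine (Finset.card_le_card h1).trans (Finset.card_image_le.trans ?_)
      rw [Finset.card_univ, Fintype.card_fin]
      exact hrs
    have hcv : ∀ m : Fin (ar s), v m ∈ K → c ⟨m, by omega⟩ = v m := by
      intro m hm
      have hl : ∃ hl : ((⟨m, by omega⟩ : Fin (r + 1)) : ℕ) < ar s, v ⟨(⟨m, by omega⟩ : Fin (r + 1)), hl⟩ ∈ K :=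
        ⟨m.2, hm⟩
      simp only [c]
      rw [dif_pos hl]
    have hev : ev c p = v := by
      funext m
      show Sum.elim id c (p m) = v m
      by_cases hm : v m ∈ K
      · have e : p m = Sum.inr ⟨m, by omega⟩ := if_pos hm
        rw [e]
        exact hcv m hm
      · have e : p m = Sum.inl (v m) := if_neg hm
        rw [e]
        rfl
    have hout : ∀ w ∈ out p, w ∉ K := by
      intro w hw
      obtain ⟨m, hm⟩ := mem_out.1 hw
      by_cases hm' : v m ∈ K
      · have e : p m = Sum.inr ⟨m, by omega⟩ := if_pos hm'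
        rw [e] at hm
        exact absurd hm (by simp)
      · have e : p m = Sum.inl (v m) := if_neg hm'
        rw [e] at hm
        have h1 : v m = w := Sum.inl_injective hm
        rw [← h1]
        exact hm'
    have h3 : ¬ Min R A c s p := not_min R hG hK horb hc (hcard 1) hout
    have h4 : ¬ Min R A (g ∘ c) s p := not_min R hG hK horb (u := g ∘ c) (fun i => hgK _ (hc i)) (hcard g) hout
    have h5 := same20 R hg h3 h4
    rw [hev] at h5
    have e : σ ∘ v = ev (g ∘ c) p := by
      funext m
      show σ (v m) = Sum.elim id (g ∘ c) (p m)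
      by_cases hm : v m ∈ K
      · have e : p m = Sum.inr ⟨m, by omega⟩ := if_pos hm
        rw [e, h1 _ hm]
        show _ = g (c ⟨m, _⟩)
        rw [hcv m hm]
      · have e : p m = Sum.inl (v m) := if_neg hm
        rw [e, h2 _ hm]
        rfl
    rw [e]
    exact h5
  · push Not at hex
    have e : σ ∘ v = v := by
      funext m
      exact h2 _ (hex m)
    rw [e]

end Pool.Agent.Helper38.MS
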